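import Mathlib

/-!
# Two inequivalent-looking indecomposables with equivalent binary forms

We answer Q1 of MP_d6b6f7_nt: in `K = ℚ(√41)` the indecomposable integers `α = 13 + 2√41`
(norm 5) and `β = (173 + 27√41)/2` (norm 10) form an admissible pair, and the forms
`Q_{α,2}` and `Q_{β,3}` (both of determinant 1) are equivalent over the ring of integers.
-/

namespace Pool.Agent.Results.MP_d6b6f7_nt.Equivalent

open NumberField

section Defs

variable {K : Type} [Field K]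

/-- `γ ∈ 𝓞 K` is totally positive: positive under every real embedding of `K`. -/
def TotPos (γ : 𝓞 K) : Prop := ∀ φ : K →+* ℝ, 0 < φ (γ : K)

/-- `α ∈ 𝓞 K` is indecomposable: it is totally positive and is not a sum of two totally positive
elements of `𝓞 K`. -/
def Indecomposable (α : 𝓞 K) : Prop :=
  TotPos α ∧ ¬ ∃ β γ : 𝓞 K, TotPos β ∧ TotPos γ ∧ α = β + γ

/-- The conjugate `γ'` of `γ ∈ 𝓞 K` under the automorphism `σ` of `K`. -/
noncomputable def conj (σ : K ≃+* K) (γ : 𝓞 K) : 𝓞 K := RingOfIntegers.mapRingEquiv σ γ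

/-- The binary form `Q_{α,m}(x,y) = α x² + 2 m x y + α' y²` over `𝓞 K`. -/
noncomputable def Q (σ : K ≃+* K) (α : 𝓞 K) (m : ℤ) (x y : 𝓞 K) : 𝓞 K :=
  α * x ^ 2 + 2 * (m : 𝓞 K) * x * y + conj σ α * y ^ 2

/-- Equivalence over `𝓞 K` of the forms `Q_{α,m}` and `Q_{β,n}`, by a matrix in `GL₂(𝓞 K)`. -/
def FormsEquivalent (σ : K ≃+* K) (α : 𝓞 K) (m : ℤ) (β : 𝓞 K) (n : ℤ) : Prop :=
  ∃ M : GL (Fin 2) (𝓞 K), ∀ x y : 𝓞 K,
    Q σ β n x y = Q σ α m (M.1 0 0 * x + M.1 0 1 * y) (M.1 1 0 * x + M.1 1 1 * y)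

/-- The pair `(α, β)` is admissible: both are indecomposable, `β` is associated with neither `α`
nor `α'`, and `β ≠ α η²`, `β ≠ α' η²`, `α ≠ β η²`, `α ≠ β' η²` for every `η ∈ 𝓞 K`. -/
def Admissible (σ : K ≃+* K) (α β : 𝓞 K) : Prop :=
  Indecomposable α ∧ Indecomposable β ∧ ¬ Associated β α ∧ ¬ Associated β (conj σ α) ∧
    ∀ η : 𝓞 K, β ≠ α * η ^ 2 ∧ β ≠ conj σ α * η ^ 2 ∧ α ≠ β * η ^ 2 ∧ α ≠ conj σ β * η ^ 2

end Defs

section Field41

open QuadraticAlgebra

/-- The field `ℚ(√41)`. -/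
abbrev F : Type := QuadraticAlgebra ℚ 41 0

instance fact41 : Fact (∀ r : ℚ, r ^ 2 ≠ 41 + 0 * r) := ⟨by
  intro r hr
  have h1 : IsSquare (41 : ℚ) := ⟨r, by linarith [sq r]⟩
  rw [show (41 : ℚ) = ((41 : ℕ) : ℚ) by norm_num, Rat.isSquare_natCast_iff] at h1
  obtain ⟨k, hk⟩ := h1
  have hk7 : k < 7 := by nlinarith
  interval_cases k <;> omega⟩

theorem algebraMap_rat (q : ℚ) : algebraMap ℚ F q = ⟨q, 0⟩ := by
  ext <;> simp

instance numberFieldF : NumberField F where
  to_charZero := inferInstance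
  to_finiteDimensional := by
    have h : Module.Finite ℚ (QuadraticAlgebra ℚ 41 0) := inferInstance
    convert h

theorem finrankF : Module.finrank ℚ F = 2 := by
  have h := QuadraticAlgebra.finrank_eq_two (R := ℚ) (41 : ℚ) 0
  convert h

/-- `σ`, the nontrivial automorphism of `ℚ(√41)`. -/
noncomputable def σ : F ≃+* F := starRingAut

theorem σ_apply (x : F) : σ x = ⟨x.re, -x.im⟩ := by
  show star x = _
  ext <;> simp

/-- The element `s = √41`. -/
def s : F := ⟨0, 1⟩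

theorem s_sq : s * s = 41 := by
  ext <;> simp [s]

theorem eq_add (x : F) : x = (x.re : F) + (x.im : F) * s := by
  ext <;> simp [s]

theorem phi_s (φ : F →+* ℝ) : φ s = √41 ∨ φ s = -√41 := by
  have h : φ s * φ s = 41 := by
    rw [← map_mul, s_sq, show (41 : F) = ((41 : ℚ) : F) by ext <;> simp, map_ratCast]
    norm_num
  have h2 : √(41 : ℝ) * √41 = 41 := Real.mul_self_sqrt (by norm_num)
  have h3 : (φ s - √41) * (φ s + √41) = 0 := by nlinarith
  rcases mul_eq_zero.1 h3 with h4 | h4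
  · left; linarith
  · right; linarith

theorem phi_apply (φ : F →+* ℝ) (x : F) : φ x = (x.re : ℝ) + (x.im : ℝ) * φ s := by
  conv_lhs => rw [eq_add x]
  rw [map_add, map_mul, map_ratCast, map_ratCast]

theorem sqrt_rel : √(41 : ℝ) * √41 = (41 : ℚ) • (1 : ℝ) + (0 : ℚ) • √41 := by
  rw [Real.mul_self_sqrt (by norm_num), Rat.smul_def, Rat.smul_def]; norm_num

/-- The embedding with `√41 ↦ √41`. -/
noncomputable def φ₀ : F →+* ℝ :=
  (QuadraticAlgebra.lift (R := ℚ) (A := ℝ) (a := 41) (b := 0)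
    ⟨√41, sqrt_rel⟩).toRingHom

theorem coe_rat (q : ℚ) : (q : F) = ⟨q, 0⟩ := by
  ext <;> simp

theorem φ₀_s : φ₀ s = √41 := by
  have : φ₀ s = ((QuadraticAlgebra.lift (R := ℚ) (A := ℝ) (a := 41) (b := 0)
    ⟨√41, sqrt_rel⟩ : F →ₐ[ℚ] ℝ) s) := rfl
  rw [this]
  simp [QuadraticAlgebra.lift, s]

theorem sqrt_bounds : (6.4 : ℝ) < √41 ∧ √41 < 6.404 := by
  constructor
  · rw [Real.lt_sqrt (by norm_num)]; norm_num
  · rw [Real.sqrt_lt' (by norm_num)]; norm_num

theorem totPos_of (γ : 𝓞 F) (h1 : 0 < ((γ : F).re : ℝ) + ((γ : F).im : ℝ) * √41)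
    (h2 : 0 < ((γ : F).re : ℝ) - ((γ : F).im : ℝ) * √41) : TotPos γ := by
  intro φ
  rw [phi_apply]
  rcases phi_s φ with h | h <;> rw [h]
  · exact h1
  · linarith

theorem of_totPos (γ : 𝓞 F) (h : TotPos γ) :
    0 < ((γ : F).re : ℝ) + ((γ : F).im : ℝ) * √41 ∧
    0 < ((γ : F).re : ℝ) - ((γ : F).im : ℝ) * √41 := by
  constructor
  · have := h φ₀
    rwa [phi_apply, φ₀_s] at this
  · have := h (φ₀.comp σ.toRingHom)
    simp only [RingHom.comp_apply] at this
    have h2 : σ.toRingHom (γ : F) = σ (γ : F) := rfl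
    rw [h2, σ_apply, phi_apply, φ₀_s] at this
    simp only [Rat.cast_neg] at this
    linarith

theorem isInt_of_isIntegral {q : ℚ} (h : IsIntegral ℤ q) : ∃ n : ℤ, (n : ℚ) = q := by
  obtain ⟨n, hn⟩ := IsIntegrallyClosed.isIntegral_iff.1 h
  exact ⟨n, by simpa using hn⟩

theorem integral_of_coe {q : ℚ} (h : IsIntegral ℤ ((q : F))) : IsIntegral ℤ q := by
  have h2 : IsIntegral ℤ (algebraMap ℚ F q) := by
    rw [show algebraMap ℚ F q = (q : F) by simp]; exact h
  exact (isIntegral_algebraMap_iff (algebraMap ℚ F).injective).1 h2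

/-- Every integer of `ℚ(√41)` has the form `(t + u√41)/2` with `t ≡ u (mod 2)`. -/
theorem coords (γ : 𝓞 F) : ∃ t u : ℤ, (γ : F).re = t / 2 ∧ (γ : F).im = u / 2 ∧ (2 : ℤ) ∣ t - u := by
  have hγ : IsIntegral ℤ (γ : F) := γ.isIntegral_coe
  have hγ' : IsIntegral ℤ (σ (γ : F)) := hγ.map σ.toRingHom.toIntAlgHom
  have h1 : IsIntegral ℤ ((γ : F) + σ (γ : F)) := hγ.add hγ'
  have h2 : IsIntegral ℤ ((γ : F) * σ (γ : F)) := hγ.mul hγ'
  set a := (γ : F).re with ha
  set b := (γ : F).im with hb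
  have e1 : (γ : F) + σ (γ : F) = ((2 * a : ℚ) : F) := by
    rw [σ_apply, coe_rat]; ext
    · simp [← ha]; ring
    · simp [← hb]
  have e2 : (γ : F) * σ (γ : F) = ((a ^ 2 - 41 * b ^ 2 : ℚ) : F) := by
    rw [σ_apply, coe_rat]; ext
    · simp [← ha, ← hb]; ring
    · simp [← ha, ← hb]; ring
  rw [e1] at h1
  rw [e2] at h2
  obtain ⟨t, ht⟩ := isInt_of_isIntegral (integral_of_coe h1)
  obtain ⟨N, hN⟩ := isInt_of_isIntegral (integral_of_coe h2)
  have e3 : (41 * (2 * b)) ^ 2 = ((41 * (t ^ 2 - 4 * N) : ℤ) : ℚ) := by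
    push_cast; rw [ht, hN]; ring
  have h3 : IsIntegral ℤ ((41 * (2 * b)) ^ 2) := by rw [e3]; exact isIntegral_algebraMap (R := ℤ) (A := ℚ)
  have h4 : IsIntegral ℤ (41 * (2 * b)) := IsIntegral.of_pow (by norm_num) h3
  obtain ⟨v, hv⟩ := isInt_of_isIntegral h4
  have e4 : v ^ 2 = 41 * (t ^ 2 - 4 * N) := by
    have : ((v ^ 2 : ℤ) : ℚ) = ((41 * (t ^ 2 - 4 * N) : ℤ) : ℚ) := by
      rw [← e3]; push_cast; rw [hv]
    exact_mod_cast this
  have h41 : Prime (41 : ℤ) := by
    rw [Int.prime_iff_natAbs_prime]; norm_num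
  have h5 : (41 : ℤ) ∣ v := h41.dvd_of_dvd_pow (Dvd.intro _ e4.symm)
  obtain ⟨u, hu⟩ := h5
  have hb' : b = u / 2 := by
    have : (41 : ℚ) * (2 * b) = 41 * u := by rw [← hv, hu]; push_cast; ring
    linarith
  refine ⟨t, u, by linarith, hb', ?_⟩
  have e5 : 41 * u ^ 2 = t ^ 2 - 4 * N := by
    rw [hu] at e4; nlinarith
  have h6 : (t - u) * (t + u) = 4 * (10 * u ^ 2 + N) := by nlinarith
  rcases Int.even_or_odd (t - u) with h7 | h7
  · exact h7.two_dvd
  · exfalso
    have h8 : Odd (t + u) := by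
      have : t + u = (t - u) + 2 * u := by ring
      rw [this]; exact h7.add_even (even_two_mul u)
    have h9 := h7.mul h8
    rw [h6] at h9
    have h10 : Even (4 * (10 * u ^ 2 + N)) := ⟨2 * (10 * u ^ 2 + N), by ring⟩
    exact (Int.not_even_iff_odd.2 h9) h10

theorem integral_omega (a b : ℤ) : IsIntegral ℤ (⟨a + b / 2, b / 2⟩ : F) := by
  refine ⟨Polynomial.X ^ 2 - Polynomial.C (2 * a + b) * Polynomial.X
    + Polynomial.C (a ^ 2 + a * b - 10 * b ^ 2), ?_, ?_⟩
  · monicity!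
  · simp only [Polynomial.eval₂_add, Polynomial.eval₂_sub, Polynomial.eval₂_mul,
      Polynomial.eval₂_pow, Polynomial.eval₂_X, Polynomial.eval₂_C]
    have e : ∀ n : ℤ, algebraMap ℤ F n = ⟨(n : ℚ), 0⟩ := by
      intro n
      simp
      ext <;> simp
    rw [e, e]
    ext
    · simp [pow_two]; ring
    · simp [pow_two]; ring

/-- `α = 13 + 2√41`. -/
noncomputable def α : 𝓞 F := ⟨⟨13, 2⟩, by
  have := integral_omega 11 4
  norm_num at this
  exact this⟩

/-- `β = (173 + 27√41)/2`. -/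
noncomputable def β : 𝓞 F := ⟨⟨173 / 2, 27 / 2⟩, by
  have := integral_omega 73 27
  norm_num at this
  exact this⟩

theorem coe_α : (α : F) = ⟨13, 2⟩ := rfl

theorem coe_β : (β : F) = ⟨173 / 2, 27 / 2⟩ := rfl

theorem coe_conj (γ : 𝓞 F) : ((conj σ γ : 𝓞 F) : F) = ⟨(γ : F).re, -(γ : F).im⟩ := by
  rw [conj, RingOfIntegers.mapRingEquiv_apply, σ_apply]

/-- Integer coordinates of a totally positive integer `(t + u√41)/2`: `t > 0`, `t² > 41 u²`. -/
theorem coords_pos (γ : 𝓞 F) (h : TotPos γ) : ∃ t u : ℤ, (γ : F).re = t / 2 ∧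
    (γ : F).im = u / 2 ∧ (2 : ℤ) ∣ t - u ∧ 0 < t ∧ 41 * u ^ 2 < t ^ 2 := by
  obtain ⟨t, u, ht, hu, hd⟩ := coords γ
  obtain ⟨h1, h2⟩ := of_totPos γ h
  rw [ht, hu] at h1 h2
  push_cast at h1 h2
  refine ⟨t, u, ht, hu, hd, ?_, ?_⟩
  · have : (0 : ℝ) < t := by linarith
    exact_mod_cast this
  · have h3 : √(41 : ℝ) * √41 = 41 := Real.mul_self_sqrt (by norm_num)
    have h4 : (0 : ℝ) < (t / 2 + u / 2 * √41) * (t / 2 - u / 2 * √41) := mul_pos h1 h2
    have h5 : ((t : ℝ) / 2 + u / 2 * √41) * (t / 2 - u / 2 * √41)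
        = (t ^ 2 - u ^ 2 * (√41 * √41)) / 4 := by ring
    rw [h5, h3] at h4
    have : (41 : ℝ) * u ^ 2 < t ^ 2 := by linarith
    exact_mod_cast this

theorem totPos_α : TotPos α := by
  have h := sqrt_bounds
  apply totPos_of
  · rw [coe_α]; push_cast; nlinarith [h.1]
  · rw [coe_α]; push_cast; nlinarith [h.2]

theorem totPos_β : TotPos β := by
  have h := sqrt_bounds
  apply totPos_of
  · rw [coe_β]; push_cast; nlinarith [h.1]
  · rw [coe_β]; push_cast; nlinarith [h.2]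

theorem indecomposable_α : Indecomposable α := by
  refine ⟨totPos_α, ?_⟩
  rintro ⟨x, y, hx, hy, hxy⟩
  obtain ⟨t, u, ht, hu, hd, h0, h1⟩ := coords_pos x hx
  obtain ⟨t', u', ht', hu', hd', h0', h1'⟩ := coords_pos y hy
  have e := congrArg (fun z : 𝓞 F => (z : F)) hxy
  simp only [map_add, coe_α] at e
  have e1 := congrArg QuadraticAlgebra.re e
  have e2 := congrArg QuadraticAlgebra.im e
  simp only [QuadraticAlgebra.re_add, QuadraticAlgebra.im_add, ht, ht', hu, hu'] at e1 e2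
  have e3 : t + t' = 26 := by
    have : ((t + t' : ℤ) : ℚ) = (26 : ℤ) := by push_cast; linarith
    exact_mod_cast this
  have e4 : u + u' = 4 := by
    have : ((u + u' : ℤ) : ℚ) = (4 : ℤ) := by push_cast; linarith
    exact_mod_cast this
  have p1 : 0 < 3 * t - 19 * u := by nlinarith
  have p2 : 0 < 3 * t' - 19 * u' := by nlinarith
  omega

theorem indecomposable_β : Indecomposable β := by
  refine ⟨totPos_β, ?_⟩
  rintro ⟨x, y, hx, hy, hxy⟩
  obtain ⟨t, u, ht, hu, hd, h0, h1⟩ := coords_pos x hx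
  obtain ⟨t', u', ht', hu', hd', h0', h1'⟩ := coords_pos y hy
  have e := congrArg (fun z : 𝓞 F => (z : F)) hxy
  simp only [map_add, coe_β] at e
  have e1 := congrArg QuadraticAlgebra.re e
  have e2 := congrArg QuadraticAlgebra.im e
  simp only [QuadraticAlgebra.re_add, QuadraticAlgebra.im_add, ht, ht', hu, hu'] at e1 e2
  have e3 : t + t' = 173 := by
    have : ((t + t' : ℤ) : ℚ) = (173 : ℤ) := by push_cast; linarith
    exact_mod_cast this
  have e4 : u + u' = 27 := by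
    have : ((u + u' : ℤ) : ℚ) = (27 : ℤ) := by push_cast; linarith
    exact_mod_cast this
  have p1 : 0 < 10 * t - 64 * u := by nlinarith
  have p2 : 0 < 10 * t' - 64 * u' := by nlinarith
  omega

theorem norm_coe (γ : 𝓞 F) :
    ((Algebra.norm ℤ γ : ℤ) : ℚ) = (γ : F).re ^ 2 - 41 * (γ : F).im ^ 2 := by
  rw [Algebra.coe_norm_int]
  have h : Algebra.norm ℚ (γ : F) = QuadraticAlgebra.norm (γ : F) := by
    rw [← QuadraticAlgebra.det_toLinearMap_eq_norm]
    rfl
  rw [h, QuadraticAlgebra.norm_def]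
  ring

theorem norm_α : Algebra.norm ℤ α = 5 := by
  have h := norm_coe α
  rw [coe_α] at h
  have : ((Algebra.norm ℤ α : ℤ) : ℚ) = ((5 : ℤ) : ℚ) := by rw [h]; norm_num
  exact_mod_cast this

theorem norm_β : Algebra.norm ℤ β = 10 := by
  have h := norm_coe β
  rw [coe_β] at h
  have : ((Algebra.norm ℤ β : ℤ) : ℚ) = ((10 : ℤ) : ℚ) := by rw [h]; norm_num
  exact_mod_cast this

theorem norm_conj (γ : 𝓞 F) : Algebra.norm ℤ (conj σ γ) = Algebra.norm ℤ γ := by
  have h := norm_coe (conj σ γ)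
  have h' := norm_coe γ
  rw [coe_conj] at h
  have : ((Algebra.norm ℤ (conj σ γ) : ℤ) : ℚ) = ((Algebra.norm ℤ γ : ℤ) : ℚ) := by
    rw [h, h']; ring
  exact_mod_cast this

theorem not_associated {x y : 𝓞 F} (hx : Algebra.norm ℤ x = 10) (hy : Algebra.norm ℤ y = 5) :
    ¬ Associated x y := by
  rintro ⟨u, hu⟩
  have h := congrArg (Algebra.norm ℤ) hu
  rw [map_mul, hx, hy] at h
  omega

theorem admissible : Admissible σ α β := by
  refine ⟨indecomposable_α, indecomposable_β, not_associated norm_β norm_α,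
    not_associated norm_β (by rw [norm_conj, norm_α]), fun η => ⟨?_, ?_, ?_, ?_⟩⟩
  · intro h
    have h := congrArg (Algebra.norm ℤ) h
    rw [map_mul, map_pow, norm_α, norm_β] at h
    have h2 : Algebra.norm ℤ η ^ 2 = 2 := by omega
    have h3 : |Algebra.norm ℤ η| < 2 := by
      apply abs_lt_of_sq_lt_sq (by omega) (by norm_num)
    rw [abs_lt] at h3
    obtain ⟨h4, h5⟩ := h3
    interval_cases hN : Algebra.norm ℤ η <;> omega
  · intro h
    have h := congrArg (Algebra.norm ℤ) h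
    rw [map_mul, map_pow, norm_conj, norm_α, norm_β] at h
    have h2 : Algebra.norm ℤ η ^ 2 = 2 := by omega
    have h3 : |Algebra.norm ℤ η| < 2 := by
      apply abs_lt_of_sq_lt_sq (by omega) (by norm_num)
    rw [abs_lt] at h3
    obtain ⟨h4, h5⟩ := h3
    interval_cases hN : Algebra.norm ℤ η <;> omega
  · intro h
    have h := congrArg (Algebra.norm ℤ) h
    rw [map_mul, map_pow, norm_α, norm_β] at h
    omega
  · intro h
    have h := congrArg (Algebra.norm ℤ) h
    rw [map_mul, map_pow, norm_conj, norm_α, norm_β] at h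
    omega

/-- `b = 32 - 5√41`, the upper right entry of the transforming matrix. -/
noncomputable def mb : 𝓞 F := ⟨⟨32, -5⟩, by
  have := integral_omega 37 (-10)
  norm_num at this
  exact this⟩

/-- `c = (19 + 3√41)/2`, the lower left entry of the transforming matrix. -/
noncomputable def mc : 𝓞 F := ⟨⟨19 / 2, 3 / 2⟩, by
  have := integral_omega 8 3
  norm_num at this
  exact this⟩

/-- `d = (-5 + √41)/2`, the lower right entry of the transforming matrix. -/
noncomputable def md : 𝓞 F := ⟨⟨-5 / 2, 1 / 2⟩, by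
  have := integral_omega (-3) 1
  rw [show (((-3 : ℤ) : ℚ) + ((1 : ℤ) : ℚ) / 2) = -5 / 2 by norm_num,
    show (((1 : ℤ) : ℚ) / 2) = 1 / 2 by norm_num] at this
  exact this⟩

theorem coe_mb : (mb : F) = ⟨32, -5⟩ := rfl
theorem coe_mc : (mc : F) = ⟨19 / 2, 3 / 2⟩ := rfl
theorem coe_md : (md : F) = ⟨-5 / 2, 1 / 2⟩ := rfl

theorem ident_det : 1 * md - mb * mc = 1 := by
  apply RingOfIntegers.ext
  simp only [map_sub, map_mul, map_one, coe_mb, coe_mc, coe_md]
  ext <;> norm_num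

theorem ident1 : β = α + 4 * mc + conj σ α * mc ^ 2 := by
  apply RingOfIntegers.ext
  simp only [map_add, map_mul, map_pow, map_ofNat, coe_conj, coe_α, coe_β, coe_mc]
  ext <;> norm_num [pow_two]

theorem ident2 : (3 : 𝓞 F) = α * mb + 2 * (md + mb * mc) + conj σ α * mc * md := by
  apply RingOfIntegers.ext
  simp only [map_add, map_mul, map_ofNat, coe_conj, coe_α, coe_mb, coe_mc, coe_md]
  ext <;> norm_num

theorem ident3 : conj σ β = α * mb ^ 2 + 4 * mb * md + conj σ α * md ^ 2 := by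
  apply RingOfIntegers.ext
  simp only [map_add, map_mul, map_pow, map_ofNat, coe_conj, coe_α, coe_β, coe_mb, coe_md]
  ext <;> norm_num [pow_two]

theorem formsEquivalent : FormsEquivalent σ α 2 β 3 := by
  have hdet : IsUnit (!![1, mb; mc, md] : Matrix (Fin 2) (Fin 2) (𝓞 F)).det := by
    rw [Matrix.det_fin_two_of, ident_det]; exact isUnit_one
  refine ⟨Matrix.GeneralLinearGroup.mk'' !![1, mb; mc, md] hdet, fun x y => ?_⟩
  have e : (Matrix.GeneralLinearGroup.mk'' !![1, mb; mc, md] hdet).1 = !![1, mb; mc, md] := rfl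
  have e00 : (!![1, mb; mc, md] : Matrix (Fin 2) (Fin 2) (𝓞 F)) 0 0 = 1 := rfl
  have e01 : (!![1, mb; mc, md] : Matrix (Fin 2) (Fin 2) (𝓞 F)) 0 1 = mb := rfl
  have e10 : (!![1, mb; mc, md] : Matrix (Fin 2) (Fin 2) (𝓞 F)) 1 0 = mc := rfl
  have e11 : (!![1, mb; mc, md] : Matrix (Fin 2) (Fin 2) (𝓞 F)) 1 1 = md := rfl
  rw [e, e00, e01, e10, e11, Q, Q]
  push_cast
  linear_combination (x ^ 2) * ident1 + (2 * x * y) * ident2 + y ^ 2 * ident3

theorem isTotallyRealF : IsTotallyReal F where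
  isReal v := by
    obtain ⟨φ, hφ⟩ := v.2
    refine ⟨φ, ?_, Subtype.ext hφ⟩
    rw [ComplexEmbedding.isReal_iff]
    have h : φ s * φ s = 41 := by
      rw [← map_mul, s_sq, show (41 : F) = ((41 : ℚ) : F) by ext <;> simp, map_ratCast]
      norm_num
    have h2 : √(41 : ℝ) * √41 = 41 := Real.mul_self_sqrt (by norm_num)
    have h2' : ((√(41 : ℝ) : ℝ) : ℂ) * (√41 : ℝ) = 41 := by exact_mod_cast h2
    have h3 : (φ s - (√(41 : ℝ) : ℝ)) * (φ s + (√(41 : ℝ) : ℝ)) = 0 := by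
      linear_combination h - h2'
    have h4 : ∃ r : ℝ, φ s = (r : ℂ) := by
      rcases mul_eq_zero.1 h3 with h4 | h4
      · exact ⟨√41, by linear_combination h4⟩
      · exact ⟨-√41, by push_cast; linear_combination h4⟩
    obtain ⟨r, hr⟩ := h4
    ext x
    rw [ComplexEmbedding.conjugate_coe_eq]
    conv_lhs => rw [eq_add x]
    conv_rhs => rw [eq_add x]
    rw [map_add, map_mul, map_ratCast, map_ratCast, hr]
    simp only [map_add, map_mul, map_ratCast, Complex.conj_ofReal]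

end Field41

/-- **MP_d6b6f7_nt, Q1: yes.** There are a real quadratic field `K` (with nontrivial automorphism
`σ`), an admissible pair `(α, β)` of indecomposable integers of `K`, and nonzero integers `m`, `n`
with `m² < N(α)`, `n² < N(β)` such that `Q_{α,m}` and `Q_{β,n}` are equivalent over `𝓞 K`. -/
theorem result : ∃ (K : Type) (_ : Field K) (_ : NumberField K) (σ : K ≃+* K) (α β : 𝓞 K)
    (m n : ℤ), Module.finrank ℚ K = 2 ∧ IsTotallyReal K ∧ σ ≠ RingEquiv.refl K ∧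
      Admissible σ α β ∧ m ≠ 0 ∧ n ≠ 0 ∧
      m ^ 2 < Algebra.norm ℤ α ∧ n ^ 2 < Algebra.norm ℤ β ∧ FormsEquivalent σ α m β n := by
  refine ⟨F, inferInstance, inferInstance, σ, α, β, 2, 3, finrankF, isTotallyRealF, ?_, admissible,
    by norm_num, by norm_num, by rw [norm_α]; norm_num, by rw [norm_β]; norm_num, formsEquivalent⟩
  · intro h
    have h2 : σ s = s := by rw [h]; rfl
    rw [σ_apply] at h2
    have h3 := congrArg QuadraticAlgebra.im h2
    simp [s] at h3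
    linarith


end Pool.Agent.Results.MP_d6b6f7_nt.Equivalent

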